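import Pool.Agent.R815.SD.Final

/-!
# Longer preference lists can hurt the last student (MP_28dd6c_pr, Q1: NO)

Serial dictatorship, `n` schools with `q` seats each, every student has an independent uniformly
random ordered list of distinct schools.  For `q = 12` and all large `n` the last of the `12 n`
students is matched with strictly smaller probability under lists of length `1000` than under
lists of length `12`.
-/

namespace Pool.Agent.Results.MP_28dd6c_pr.LongerListsHurt

open Pool.Agent.R815.SD MeasureTheory ProbabilityTheory

/-- (1) `matchProb n d q m i` is the probability that student number `i + 1` of `m` students is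
matched, for independent uniformly distributed lists on any probability space.
(2) The monotonicity statement of Q1 is false.
(3) Quantitative form: for `q = 12`, all sufficiently large `n` and the last student (number
`12 n`), lists of length `1000` give a smaller probability than lists of length `12`. -/
theorem result :
    (∀ (n d q m : ℕ) (Ω : Type) (_ : MeasurableSpace Ω) (μ : Measure Ω),
      IsProbabilityMeasure μ → ∀ X : Fin m → Ω → PrefList n d, (∀ k, Measurable (X k)) →
      iIndepFun X μ →
      (∀ k, ∀ p : PrefList n d,
        μ (X k ⁻¹' {p}) = ((Fintype.card (PrefList n d) : ENNReal))⁻¹) →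
      ∀ i : Fin m, μ {ω | Matched q (fun k => X k ω) i} = ENNReal.ofReal (matchProb n d q m i)) ∧
    (¬ ∀ q d l : ℕ, 1 ≤ q → 1 ≤ d → d ≤ l → ∃ N : ℕ, ∀ n : ℕ, N ≤ n → ∀ i : Fin (n * q),
      matchProb n d q (n * q) i ≤ matchProb n l q (n * q) i) ∧
    (∃ N : ℕ, ∀ n : ℕ, N ≤ n → 1000 ≤ n ∧ ∀ i : Fin (n * 12), (i : ℕ) + 1 = n * 12 →
      matchProb n 1000 12 (n * 12) i < matchProb n 12 12 (n * 12) i) := by
  refine ⟨?_, ?_, last_student⟩
  · intro n d q m Ω _ μ _ X hX hind hunif i
    exact prob_eq_matchProb μ X hX hind hunif i
  · intro hcon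
    obtain ⟨N, hN⟩ := hcon 12 12 1000 (by norm_num) (by norm_num) (by norm_num)
    obtain ⟨M, hM⟩ := last_student
    obtain ⟨h1, h2⟩ := hM (max N M) (le_max_right _ _)
    have hlt : max N M * 12 - 1 < max N M * 12 := by omega
    have h3 := h2 ⟨max N M * 12 - 1, hlt⟩ (by
      show max N M * 12 - 1 + 1 = max N M * 12
      omega)
    have h4 := hN (max N M) (le_max_left _ _) ⟨max N M * 12 - 1, hlt⟩
    exact absurd h3 (not_lt.mpr h4)

end Pool.Agent.Results.MP_28dd6c_pr.LongerListsHurt
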